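import Mathlib

set_option autoImplicit false
set_option maxHeartbeats 400000

namespace Pool.Agent.Results.MP_7dcdb2_al.NoExt

open Matrix Quaternion

/-- The real number `[x, x] = x^* H x`. -/
noncomputable def Q {n : ℕ} (H : Matrix (Fin n) (Fin n) ℍ) (x : Fin n → ℍ) : ℝ :=
  (star x ⬝ᵥ H *ᵥ x).re

/-- `M` is `A`-invariant and `H`-nonnegative. -/
def InvNonneg {n : ℕ} (H A : Matrix (Fin n) (Fin n) ℍ) (M : Submodule ℍᵐᵒᵖ (Fin n → ℍ)) : Prop :=
  ∀ x ∈ M, A *ᵥ x ∈ M ∧ 0 ≤ Q H x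

theorem Q_eq (x : Fin 3 → ℍ) : Q (diagonal ![1, -1, 0]) x = normSq (x 0) - normSq (x 1) := by
  simp [Q, dotProduct, mulVec_diagonal, Fin.sum_univ_three, normSq_def']
  ring

theorem result : ∃ A : Matrix (Fin 3) (Fin 3) ℍ,
    (∀ x, 0 ≤ Q (diagonal ![1, -1, 0]) x → 0 ≤ Q (diagonal ![1, -1, 0]) (A *ᵥ x)) ∧
    ∃ M₀, InvNonneg (diagonal ![1, -1, 0]) A M₀ ∧
      ¬ ∃ M, M₀ ≤ M ∧ InvNonneg (diagonal ![1, -1, 0]) A M ∧ Module.finrank ℍᵐᵒᵖ M = 2 := by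
  have hA : ∀ x : Fin 3 → ℍ, !![0, 0, 1; 0, 0, 1; 0, 0, 0] *ᵥ x = ![x 2, x 2, 0] := fun x => by
    ext1 i
    fin_cases i <;> simp [mulVec, dotProduct, Fin.sum_univ_three]
  refine ⟨!![0, 0, 1; 0, 0, 1; 0, 0, 0], fun x _ => by simp [Q_eq, hA], ℍᵐᵒᵖ ∙ ![1, 0, 0],
    fun x hx => ?_, fun ⟨M, h0, h1, h2⟩ => ?_⟩
  · obtain ⟨c, rfl⟩ := Submodule.mem_span_singleton.1 hx
    refine ⟨?_, by simp [Q_eq, normSq_nonneg]⟩
    rw [hA]
    convert Submodule.zero_mem _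
    ext1 i
    fin_cases i <;> simp
  · have h3 : M ≤ ℍᵐᵒᵖ ∙ ![1, 0, 0] := fun x hx => by
      have e : ∀ y ∈ M, y 1 = 0 := fun y hy => by
        have := (h1 _ (sub_mem hy (h0 (Submodule.smul_mem _ (MulOpposite.op (y 0))
          (Submodule.mem_span_singleton_self _))))).2
        simp only [Q_eq, Pi.sub_apply, Pi.smul_apply] at this
        exact normSq_le_zero.1 (by simpa using this)
      have e2 := e _ (h1 x hx).1
      rw [hA] at e2
      refine Submodule.mem_span_singleton.2 ⟨MulOpposite.op (x 0), ?_⟩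
      ext1 i
      fin_cases i
      · simp
      · simp [e x hx]
      · simpa using e2.symm
    have := (Submodule.finrank_mono h3).trans (finrank_span_le_card _)
    simp [h2] at this

end Pool.Agent.Results.MP_7dcdb2_al.NoExt
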